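import Mathlib
import Pool.Agent.Work.MP_637dc3_nt.Step
import Pool.Agent.Work.MP_637dc3_nt.D.Dich

/-!
# A dichotomy for the exponents of simultaneous approximation of powers

For an irrational real number `ξ` and `1 ≤ n < m` with `λ_n(ξ) > 2 / n`: either `λ_1 = n λ_n + n - 1`
(and then `λ_m ≥ (n λ_n - m + n) / m`), or `n ≥ 3`, `λ_n ≤ 1` and
`λ_m ≥ ((m + n - 3) λ_n - (m - n + 1)) / ((m + n - 3) - (m - n + 1) λ_n) > (n λ_n - m + n) / m`.
-/

set_option autoImplicit false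

namespace Pool.Agent.Results.MP_637dc3_nt.ExponentDichotomy

open Finset Pool.Agent.Work.MP_637dc3_nt

/-- The solutions `(x, y_1, ..., y_n)` in integers, `x ≥ 1`, of the inequality
`0 < max |x ξ ^ j - y_j| ≤ x ^ (-t)` (the maximum over `1 ≤ j ≤ n`). -/
def solutions (n : ℕ) (ξ t : ℝ) : Set (ℕ × (Fin n → ℤ)) :=
  {p | 1 ≤ p.1 ∧ (∃ j : Fin n, (p.1 : ℝ) * ξ ^ ((j : ℕ) + 1) - (p.2 j : ℝ) ≠ 0) ∧
    ∀ j : Fin n, |(p.1 : ℝ) * ξ ^ ((j : ℕ) + 1) - (p.2 j : ℝ)| ≤ (p.1 : ℝ) ^ (-t)}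

/-- The exponent `λ_n(ξ)` of simultaneous approximation of `ξ, ξ ^ 2, ..., ξ ^ n`. -/
noncomputable def lam (n : ℕ) (ξ : ℝ) : EReal :=
  sSup {l : EReal | ∃ t : ℝ, l = (t : EReal) ∧ (solutions n ξ t).Infinite}

theorem finite_fibre (n : ℕ) (ξ t : ℝ) (x : ℕ) :
    {y : Fin n → ℤ | ∀ j : Fin n, |(x : ℝ) * ξ ^ ((j : ℕ) + 1) - (y j : ℝ)| ≤ (x : ℝ) ^ (-t)}.Finite := by
  have h : {y : Fin n → ℤ | ∀ j : Fin n,
      |(x : ℝ) * ξ ^ ((j : ℕ) + 1) - (y j : ℝ)| ≤ (x : ℝ) ^ (-t)} ⊆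
      Set.univ.pi (fun j : Fin n => Set.Icc ⌊(x : ℝ) * ξ ^ ((j : ℕ) + 1) - (x : ℝ) ^ (-t)⌋
        ⌈(x : ℝ) * ξ ^ ((j : ℕ) + 1) + (x : ℝ) ^ (-t)⌉) := by
    intro y hy j _
    have h1 := abs_le.1 (hy j)
    constructor
    · exact Int.floor_le_iff.2 (by linarith [h1.2])
    · exact Int.le_ceil_iff.2 (by linarith [h1.1])
  exact (Set.Finite.pi (fun j => Set.finite_Icc _ _)).subset h

theorem solutions_infinite_iff (n : ℕ) (hn : 1 ≤ n) (ξ t : ℝ) (hξ : Irrational ξ) :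
    (solutions n ξ t).Infinite ↔ (S ξ n t).Infinite := by
  constructor
  · intro h hS
    apply h
    have hsub : solutions n ξ t ⊆ ⋃ x ∈ S ξ n t, (fun y => (x, y)) ''
        {y : Fin n → ℤ | ∀ j : Fin n,
          |(x : ℝ) * ξ ^ ((j : ℕ) + 1) - (y j : ℝ)| ≤ (x : ℝ) ^ (-t)} := by
      rintro ⟨x, y⟩ ⟨hx, -, hy⟩
      simp only [Set.mem_iUnion]
      refine ⟨x, ⟨hx, fun j hj => ?_⟩, y, hy, rfl⟩
      rw [Finset.mem_Icc] at hj
      have h1 := hy ⟨j - 1, by omega⟩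
      have h2 : (j - 1) + 1 = j := by omega
      simp only [h2] at h1
      exact (round_le _ _).trans h1
    exact (hS.biUnion (fun x _ => (finite_fibre n ξ t x).image _)).subset hsub
  · intro h
    have hinj : Set.InjOn (fun x : ℕ => ((x, fun j : Fin n => round ((x : ℝ) * ξ ^ ((j : ℕ) + 1))) :
        ℕ × (Fin n → ℤ))) (S ξ n t) := fun x _ y _ hxy => congrArg Prod.fst hxy
    refine (h.image hinj).mono ?_
    rintro _ ⟨x, ⟨hx, hxj⟩, rfl⟩
    refine ⟨hx, ⟨⟨0, hn⟩, ?_⟩, fun j => ?_⟩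
    · have h1 : Irrational ((x : ℝ) * ξ) := hξ.natCast_mul (by omega)
      have h2 := h1.ne_int (round ((x : ℝ) * ξ))
      simpa [sub_ne_zero] using h2
    · exact hxj (j + 1) (Finset.mem_Icc.2 ⟨by omega, by omega⟩)

theorem le_lam (n : ℕ) (hn : 1 ≤ n) (ξ t : ℝ) (hξ : Irrational ξ) (h : (S ξ n t).Infinite) :
    (t : EReal) ≤ lam n ξ :=
  le_sSup ⟨t, rfl, (solutions_infinite_iff n hn ξ t hξ).2 h⟩

/-- every real below `λ_n` is an exponent -/
theorem infinite_of_lt_lam (n : ℕ) (hn : 1 ≤ n) (ξ t : ℝ) (hξ : Irrational ξ)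
    (h : (t : EReal) < lam n ξ) : (S ξ n t).Infinite := by
  obtain ⟨_, ⟨s, rfl, hs⟩, hts⟩ := lt_sSup_iff.1 h
  rw [EReal.coe_lt_coe_iff] at hts
  exact ((solutions_infinite_iff n hn ξ s hξ).1 hs).mono (MP637.S_mono hts.le)

theorem lam_nonneg (n : ℕ) (hn : 1 ≤ n) (ξ : ℝ) (hξ : Irrational ξ) : 0 ≤ lam n ξ := by
  simpa using le_lam n hn ξ 0 hξ (MP637.S_infinite_of_nonpos ξ n le_rfl)

/-- the transfer inequality in the form `l < λ_n → (n l - m + n) / m ≤ λ_m` -/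
theorem transfer_of_lt {m n : ℕ} (hn : 1 ≤ n) (hnm : n ≤ m) {ξ : ℝ} (hξ : Irrational ξ) {l : ℝ}
    (hl : (l : EReal) < lam n ξ) : ((((n : ℝ) * l - m + n) / m : ℝ) : EReal) ≤ lam m ξ := by
  refine le_of_forall_lt (fun c hc => ?_)
  obtain ⟨μ, hμ1, hμ2⟩ := EReal.lt_iff_exists_real_btwn.1 hc
  rw [EReal.coe_lt_coe_iff] at hμ2
  exact hμ1.trans_le (le_lam m (hn.trans hnm) ξ μ hξ
    (main n hn ξ l (infinite_of_lt_lam n hn ξ l hξ hl) m hnm μ hμ2))

theorem dich_real {m n : ℕ} (hn : 1 ≤ n) (hnm : n < m) {ξ : ℝ} (hξ : Irrational ξ)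
    (h : ((2 / (n : ℝ) : ℝ) : EReal) < lam n ξ) :
    (∀ l : ℝ, (l : EReal) < lam n ξ → ((n * l + n - 1 : ℝ) : EReal) ≤ lam 1 ξ) ∨
    (3 ≤ n ∧ ∃ l0 : ℝ, 2 / (n : ℝ) < l0 ∧ (l0 : EReal) < lam n ξ ∧
      ∀ l : ℝ, l0 ≤ l → (l : EReal) < lam n ξ → l ≤ 1 ∧
        (((((m : ℝ) + n - 3) * l - (m - n + 1)) / (((m : ℝ) + n - 3) - (m - n + 1) * l) : ℝ) :
          EReal) ≤ lam m ξ) := by
  obtain ⟨K, hK, hdich⟩ := MP637.dich_one ξ n hn
  have hn0 : (0 : ℝ) < n := by exact_mod_cast hn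
  by_cases hone : ∀ l : ℝ, 2 / (n : ℝ) < l → (l : EReal) < lam n ξ → (MP637.SOne ξ n l).Infinite
  · left
    intro l hl
    -- pass to a larger exponent above `2 / n`
    obtain ⟨l1, h1, h2⟩ := EReal.lt_iff_exists_real_btwn.1 (max_lt hl h)
    rw [max_lt_iff, EReal.coe_lt_coe_iff, EReal.coe_lt_coe_iff] at h1
    have hl1 : 0 ≤ l1 := le_trans (by positivity) h1.2.le
    have h3 := MP637.one_case hξ hn hl1 (hone l1 h1.2 h2)
    refine le_trans ?_ (le_lam 1 le_rfl ξ _ hξ h3)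
    rw [EReal.coe_le_coe_iff]
    nlinarith [h1.1]
  · right
    push Not at hone
    obtain ⟨l0, hl0, hl0', hfin⟩ := hone
    have key : ∀ l : ℝ, l0 ≤ l → (l : EReal) < lam n ξ → (MP637.STwo ξ n l K).Infinite := by
      intro l hl hlt
      have hS := infinite_of_lt_lam n hn ξ l hξ hlt
      have hl2 : 2 / (n : ℝ) < l := lt_of_lt_of_le hl0 hl
      obtain ⟨q0, hq0⟩ := hdich l hl2
      have hfin1 : (MP637.SOne ξ n l).Finite := hfin.subset (fun q hq => ⟨MP637.S_mono hl hq.1, hq.2⟩)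
      have hdiff : (S ξ n l \ (MP637.SOne ξ n l ∪ {q | q < q0})).Infinite :=
        hS.sdiff (hfin1.union (Set.finite_lt_nat q0))
      refine hdiff.mono (fun q hq => ?_)
      obtain ⟨hqS, hq2⟩ := hq
      rw [Set.mem_union, not_or] at hq2
      rcases hq0 q hqS (not_lt.1 hq2.2) with h1 | h1
      · exact absurd h1 hq2.1
      · exact h1
    refine ⟨?_, l0, hl0, hl0', fun l hl hlt => ?_⟩
    · obtain ⟨c, hc⟩ : ∃ c : ℝ, c < (((m : ℝ) + n - 3) * l0 - (m - n + 1)) /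
        (((m : ℝ) + n - 3) - (m - n + 1) * l0) := exists_lt _
      exact (MP637.two_case hξ hnm hl0 hK (key l0 le_rfl hl0') hc).1
    · have hl2 : 2 / (n : ℝ) < l := lt_of_lt_of_le hl0 hl
      refine ⟨?_, le_of_forall_lt (fun c hc => ?_)⟩
      · obtain ⟨c, hc⟩ : ∃ c : ℝ, c < (((m : ℝ) + n - 3) * l - (m - n + 1)) /
          (((m : ℝ) + n - 3) - (m - n + 1) * l) := exists_lt _
        exact (MP637.two_case hξ hnm hl2 hK (key l hl hlt) hc).2.1
      · obtain ⟨μ, hμ1, hμ2⟩ := EReal.lt_iff_exists_real_btwn.1 hc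
        rw [EReal.coe_lt_coe_iff] at hμ2
        exact hμ1.trans_le (le_lam m (by omega) ξ μ hξ
          (MP637.two_case hξ hnm hl2 hK (key l hl hlt) hμ2).2.2)

/-- the bound of the second case is larger than `(n L - m + n) / m` -/
theorem bound_lt {m n : ℕ} (hn : 3 ≤ n) (hnm : n < m) {L : ℝ} (hL : 2 / (n : ℝ) < L)
    (hden : 0 < ((m : ℝ) + n - 3) - (m - n + 1) * L) :
    ((n : ℝ) * L - m + n) / m <
      (((m : ℝ) + n - 3) * L - (m - n + 1)) / (((m : ℝ) + n - 3) - (m - n + 1) * L) := by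
  have hn3 : (3 : ℝ) ≤ n := by exact_mod_cast hn
  have hn0 : (0 : ℝ) < n := by linarith
  have hd : (n : ℝ) + 1 ≤ m := by exact_mod_cast hnm
  have hm0 : (0 : ℝ) < m := by linarith
  rw [div_lt_iff₀ hn0] at hL
  rw [div_lt_div_iff₀ hm0 hden]
  obtain ⟨d, hd0, hmd⟩ : ∃ d : ℝ, 1 ≤ d ∧ (m : ℝ) = n + d := ⟨m - n, by linarith, by ring⟩
  obtain ⟨t, ht0, htL⟩ : ∃ t : ℝ, 0 < t ∧ L * n = 2 + t := ⟨L * n - 2, by linarith, by ring⟩
  have key : (n : ℝ) * ((((m : ℝ) + n - 3) * L - (m - n + 1)) * m -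
      ((n : ℝ) * L - m + n) * (((m : ℝ) + n - 3) - (m - n + 1) * L)) =
      (d + 1) * (t ^ 2 + 4 * t) + d * (2 * n - 4) * t + (d - 1) * ((n : ℝ) ^ 2 - 4) := by
    have ht : t = L * n - 2 := by linarith
    rw [hmd, ht]
    ring
  have h1 : 0 < (d + 1) * (t ^ 2 + 4 * t) := by positivity
  have h2 : 0 ≤ d * (2 * n - 4) * t :=
    mul_nonneg (mul_nonneg (by linarith) (by linarith)) ht0.le
  have h3 : 0 ≤ (d - 1) * ((n : ℝ) ^ 2 - 4) := mul_nonneg (by linarith) (by nlinarith)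
  have h4 : 0 < (((m : ℝ) + n - 3) * L - (m - n + 1)) * m -
      ((n : ℝ) * L - m + n) * (((m : ℝ) + n - 3) - (m - n + 1) * L) := by
    refine pos_of_mul_pos_right (a := (n : ℝ)) ?_ hn0.le
    rw [key]
    linarith
  linarith

/-- Let `ξ` be irrational, `1 ≤ n < m` and `λ_n(ξ) > 2 / n`. Then either `λ_1 = n λ_n + n - 1` and
`λ_m ≥ (n λ_n - m + n) / m`, or `n ≥ 3`, `λ_n = L ≤ 1` (a real number) and `λ_m` is at least
`((m + n - 3) L - (m - n + 1)) / ((m + n - 3) - (m - n + 1) L)`, which is greater than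
`(n L - m + n) / m`. -/
theorem result (m n : ℕ) (hn : 1 ≤ n) (hnm : n < m) (ξ : ℝ) (hξ : Irrational ξ)
    (h : ((2 / (n : ℝ) : ℝ) : EReal) < lam n ξ) :
    (lam 1 ξ = (n : EReal) * lam n ξ + (n : EReal) - 1 ∧
      ((n : EReal) * lam n ξ - (m : EReal) + (n : EReal)) / (m : EReal) ≤ lam m ξ) ∨
    (3 ≤ n ∧ ∃ L : ℝ, lam n ξ = (L : EReal) ∧ L ≤ 1 ∧
      ((n : ℝ) * L - m + n) / m <
        (((m : ℝ) + n - 3) * L - (m - n + 1)) / (((m : ℝ) + n - 3) - (m - n + 1) * L) ∧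
      (((((m : ℝ) + n - 3) * L - (m - n + 1)) / (((m : ℝ) + n - 3) - (m - n + 1) * L) : ℝ) :
        EReal) ≤ lam m ξ) := by
  have hn0 : (0 : ℝ) < n := by exact_mod_cast hn
  have hm0 : (0 : ℝ) < m := by exact_mod_cast (by omega : 0 < m)
  have hbot : lam n ξ ≠ ⊥ := by
    intro h0
    rw [h0] at h
    exact absurd h (by simp)
  rcases dich_real hn hnm hξ h with h1 | ⟨hn3, l0, hl0, hl0', h2⟩
  · left
    have hcastn : (n : EReal) = ((n : ℝ) : EReal) := rfl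
    have hcastm : (m : EReal) = ((m : ℝ) : EReal) := rfl
    have hup : ∀ l : ℝ, (l : EReal) < lam 1 ξ → (((l - n + 1) / n : ℝ) : EReal) ≤ lam n ξ := by
      intro l hl
      have h3 := transfer_of_lt (m := n) (n := 1) le_rfl hn hξ hl
      refine le_trans (le_of_eq ?_) h3
      congr 2
      push_cast
      ring
    have htr := fun l hl => transfer_of_lt (m := m) (n := n) hn hnm.le hξ (l := l) hl
    cases hL : lam n ξ with
    | bot => exact absurd hL hbot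
    | top =>
      rw [hL] at h1 htr
      have e1 : lam 1 ξ = ⊤ := by
        rw [EReal.eq_top_iff_forall_lt]
        intro y
        refine lt_of_lt_of_le ?_ (h1 ((y + 1) / n) (EReal.coe_lt_top _))
        rw [EReal.coe_lt_coe_iff]
        field_simp
        linarith [show (1 : ℝ) ≤ n by exact_mod_cast hn]
      have e2 : lam m ξ = ⊤ := by
        rw [EReal.eq_top_iff_forall_lt]
        intro y
        refine lt_of_lt_of_le ?_ (htr ((m * (y + 1) + m) / n) (EReal.coe_lt_top _))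
        rw [EReal.coe_lt_coe_iff, lt_div_iff₀ hm0, mul_div_cancel₀ _ hn0.ne']
        nlinarith
      rw [e1, e2, hcastn, EReal.coe_mul_top_of_pos hn0]
      exact ⟨rfl, le_top⟩
    | coe L =>
      rw [hL] at h1 htr hup
      have e1 : ((n * L + n - 1 : ℝ) : EReal) ≤ lam 1 ξ := by
        refine le_of_forall_lt (fun c hc => ?_)
        obtain ⟨y, hy1, hy2⟩ := EReal.lt_iff_exists_real_btwn.1 hc
        rw [EReal.coe_lt_coe_iff] at hy2
        have h3 := h1 ((y - n + 1) / n) (by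
          rw [EReal.coe_lt_coe_iff, div_lt_iff₀ hn0]
          linarith)
        refine hy1.trans_le (le_trans (le_of_eq ?_) h3)
        congr 1
        field_simp
        ring
      have e2 : lam 1 ξ ≤ ((n * L + n - 1 : ℝ) : EReal) := by
        refine le_of_forall_lt (fun c hc => ?_)
        obtain ⟨y, hy1, hy2⟩ := EReal.lt_iff_exists_real_btwn.1 hc
        obtain ⟨y', hy1', hy2'⟩ := EReal.lt_iff_exists_real_btwn.1 hy2
        rw [EReal.coe_lt_coe_iff] at hy1'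
        have h3 := hup y' hy2'
        rw [EReal.coe_le_coe_iff, div_le_iff₀ hn0] at h3
        refine hy1.trans ?_
        rw [EReal.coe_lt_coe_iff]
        linarith
      have e3 : ((((n : ℝ) * L - m + n) / m : ℝ) : EReal) ≤ lam m ξ := by
        refine le_of_forall_lt (fun c hc => ?_)
        obtain ⟨y, hy1, hy2⟩ := EReal.lt_iff_exists_real_btwn.1 hc
        rw [EReal.coe_lt_coe_iff, lt_div_iff₀ hm0] at hy2
        have h3 := htr ((y * m + m - n) / n) (by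
          rw [EReal.coe_lt_coe_iff, div_lt_iff₀ hn0]
          linarith)
        refine hy1.trans_le (le_trans (le_of_eq ?_) h3)
        congr 1
        field_simp
        ring
      refine ⟨?_, ?_⟩
      · rw [le_antisymm e2 e1, hcastn]
        norm_cast
      · refine le_trans (le_of_eq ?_) e3
        rw [hcastn, hcastm, ← EReal.coe_mul, ← EReal.coe_sub, ← EReal.coe_add, ← EReal.coe_div]
  · right
    -- `λ_n ≤ 1`
    have hle : lam n ξ ≤ ((1 : ℝ) : EReal) := by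
      refine le_of_forall_lt (fun c hc => ?_)
      obtain ⟨y, hy1, hy2⟩ := EReal.lt_iff_exists_real_btwn.1 (max_lt hc hl0')
      obtain ⟨y', hy1', hy2'⟩ := EReal.lt_iff_exists_real_btwn.1 hy2
      rw [EReal.coe_lt_coe_iff] at hy1'
      rw [max_lt_iff, EReal.coe_lt_coe_iff] at hy1
      have h3 := (h2 y' (by linarith [hy1.2]) hy2').1
      refine hy1.1.trans ?_
      rw [EReal.coe_lt_coe_iff]
      linarith
    have htop : lam n ξ ≠ ⊤ := by
      intro h0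
      rw [h0] at hle
      exact absurd (top_le_iff.1 hle) (EReal.coe_ne_top 1)
    obtain ⟨L, hL⟩ : ∃ L : ℝ, (L : EReal) = lam n ξ := ⟨_, EReal.coe_toReal htop hbot⟩
    rw [← hL, EReal.coe_le_coe_iff] at hle
    rw [← hL] at hl0' h2
    rw [EReal.coe_lt_coe_iff] at hl0'
    have hn3' : (3 : ℝ) ≤ n := by exact_mod_cast hn3
    have hmn : (n : ℝ) + 1 ≤ m := by exact_mod_cast hnm
    have hden : 0 < ((m : ℝ) + n - 3) - (m - n + 1) * L := by nlinarith
    refine ⟨hn3, L, hL.symm, hle, bound_lt hn3 hnm (hl0.trans hl0') hden, ?_⟩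
    -- continuity of the bound at `L`
    refine le_of_forall_lt (fun c hc => ?_)
    obtain ⟨y, hy1, hy2⟩ := EReal.lt_iff_exists_real_btwn.1 hc
    rw [EReal.coe_lt_coe_iff] at hy2
    have hcont : ContinuousAt (fun l : ℝ => (((m : ℝ) + n - 3) * l - (m - n + 1)) /
        (((m : ℝ) + n - 3) - (m - n + 1) * l)) L := by
      apply ContinuousAt.div
      · fun_prop
      · fun_prop
      · exact hden.ne'
    have hev := (hcont.eventually_const_lt hy2).filter_mono (nhdsWithin_le_nhds (s := Set.Iio L))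
    have hev2 : ∀ᶠ l in nhdsWithin L (Set.Iio L), l0 < l ∧ l < L :=
      (eventually_nhdsWithin_of_eventually_nhds (eventually_gt_nhds hl0')).and
        eventually_mem_nhdsWithin
    obtain ⟨l, hl1, hl2, hl3⟩ := (hev.and hev2).exists
    have h3 := (h2 l hl2.le (by exact_mod_cast hl3)).2
    refine hy1.trans_le (le_trans ?_ h3)
    rw [EReal.coe_le_coe_iff]
    exact hl1.le

end Pool.Agent.Results.MP_637dc3_nt.ExponentDichotomy
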