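import Mathlib
import Pool.Agent.Work.MP_637dc3_nt.Sp.Fin

/-!
# The inequality `λ_m ≥ (n λ_n - m + n) / m` is optimal at every value of `λ_n`

For every `n ≥ 1` and every `L` in `[1/n, ∞]` there is a transcendental real number `ξ` with
`λ_n(ξ) = L` and `λ_m(ξ) = max (1/m) ((n L - m + n) / m)` for all `m ≥ 1`; for `m ≥ n` this is the
smallest value of `λ_m` at the transcendental numbers `ζ` with `λ_n(ζ) = L`. In particular the set
of values of `λ_n` at transcendental numbers is `[1/n, ∞]` for every `n ≥ 1`.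
-/

set_option autoImplicit false

namespace Pool.Agent.Results.MP_637dc3_nt.OptimalEverywhere

/-- The solutions `(x, y_1, ..., y_n)` in integers, `x ≥ 1`, of the inequality
`0 < max |x ξ ^ j - y_j| ≤ x ^ (-t)` (the maximum over `1 ≤ j ≤ n`). -/
def solutions (n : ℕ) (ξ t : ℝ) : Set (ℕ × (Fin n → ℤ)) :=
  {p | 1 ≤ p.1 ∧ (∃ j : Fin n, (p.1 : ℝ) * ξ ^ ((j : ℕ) + 1) - (p.2 j : ℝ) ≠ 0) ∧
    ∀ j : Fin n, |(p.1 : ℝ) * ξ ^ ((j : ℕ) + 1) - (p.2 j : ℝ)| ≤ (p.1 : ℝ) ^ (-t)}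

/-- The exponent `λ_n(ξ)` of simultaneous approximation of `ξ, ξ ^ 2, ..., ξ ^ n`. -/
noncomputable def lam (n : ℕ) (ξ : ℝ) : EReal :=
  sSup {l : EReal | ∃ t : ℝ, l = (t : EReal) ∧ (solutions n ξ t).Infinite}

theorem lam_eq (n : ℕ) (ξ : ℝ) : lam n ξ = Pool.Agent.Work.MP_637dc3_nt.Lam.lam n ξ := rfl

/-- For every `n ≥ 1` and every `L ∈ [1/n, ∞]` there is a transcendental `ξ` with `λ_n(ξ) = L` and
`λ_m(ξ) = max (1/m) ((n L - m + n) / m)` for all `m ≥ 1`, and for `m ≥ n` no transcendental `ζ` with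
`λ_n(ζ) = L` has a smaller `λ_m(ζ)`. -/
theorem result (n : ℕ) (hn : 1 ≤ n) (L : EReal) (hL : (((1 : ℝ) / n : ℝ) : EReal) ≤ L) :
    ∃ ξ : ℝ, Transcendental ℚ ξ ∧ lam n ξ = L ∧
      (∀ m : ℕ, 1 ≤ m → lam m ξ =
        max (((1 : ℝ) / m : ℝ) : EReal) (((n : EReal) * L - (m : EReal) + (n : EReal)) / (m : EReal))) ∧
      ∀ m : ℕ, n ≤ m → ∀ ζ : ℝ, Transcendental ℚ ζ → lam n ζ = L → lam m ξ ≤ lam m ζ :=
  Sp637.fin n hn L hL

end Pool.Agent.Results.MP_637dc3_nt.OptimalEverywhere
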